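import Pool.Agent.N353.PT.Stm

/-!
# PT/REM: deletion of a shortest path from a highly connected tournament
-/

set_option autoImplicit false
set_option linter.unusedVariables false

open Finset
open scoped Classical

namespace Pool.Agent.N391.PT

open Pool.Agent.N353.PT

variable {V : Type}

lemma mem_PP {r : ℕ} {p : ℕ → V} {v : V} : v ∈ PP r p ↔ ∃ j, j ≤ r ∧ p j = v := by
  unfold PP
  simp only [mem_image, mem_range, Nat.lt_succ_iff]

/-- everything reachable satisfies an invariant which is preserved by the edges -/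
lemma reach_inv {T : V → V → Prop} {U : Finset V} {u v : V} (P : V → Prop) (h0 : P u)
    (hs : ∀ a b, a ∈ U → b ∈ U → T a b → P a → P b) (h : Reach T U u v) : P v := by
  unfold Reach at h
  induction h with
  | refl => exact h0
  | tail _ hab ih => exact hs _ _ hab.1 hab.2.1 hab.2.2 ih

theorem t_REM : S_REM := by
  intro V _ T hT U S0 S1 d r p M hG hC X hX u0 hu0 w0 hw0
  by_contra hno
  set Z : Finset V := (U \ PP r p) \ X with hZ
  set C0 : Finset V := Z.filter (fun v => Reach T Z u0 v) with hC0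
  have hZm : ∀ v, v ∈ Z ↔ v ∈ U ∧ v ∉ PP r p ∧ v ∉ X := by
    intro v
    rw [hZ]
    simp only [mem_sdiff]
    tauto
  have hC0m : ∀ v, v ∈ C0 ↔ v ∈ Z ∧ Reach T Z u0 v := by
    intro v
    rw [hC0, mem_filter]
  have hu0C : u0 ∈ C0 := (hC0m u0).2 ⟨hu0, Relation.ReflTransGen.refl⟩
  have hw0C : w0 ∉ C0 := fun h => hno ((hC0m w0).1 h).2
  -- edges inside `Z` from `C0` end in `C0`
  have hstep : ∀ u ∈ C0, ∀ v ∈ Z, T u v → v ∈ C0 := by
    intro u hu v hv huv
    have h := (hC0m u).1 hu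
    exact (hC0m v).2 ⟨hv, Relation.ReflTransGen.tail h.2 ⟨h.1, hv, huv⟩⟩
  have hback : ∀ u ∈ C0, ∀ w ∈ Z, w ∉ C0 → T w u := by
    intro u hu w hw hwC
    have hne : w ≠ u := fun e => hwC (e ▸ hu)
    rw [hT.2 w u hne]
    exact fun h => hwC (hstep u hu w hw h)
  have hCU : ∀ u ∈ C0, u ∈ U := fun u hu => ((hZm u).1 ((hC0m u).1 hu).1).1
  have claim : ∀ i ≤ r, ∀ j ≤ r, ∀ u ∈ C0, ∀ w ∈ Z, w ∉ C0 → T (p i) w → T u (p j) → j ≤ i + 3 := by
    intro i hi j hj u hu w hw hwC h1 h2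
    have e1 := hG.d1 (p i) (hG.pU i hi) w ((hZm w).1 hw).1 h1
    have e2 := hG.d1 w ((hZm w).1 hw).1 u (hCU u hu) (hback u hu w hw hwC)
    have e3 := hG.d1 u (hCU u hu) (p j) (hG.pU j hj) h2
    rw [hG.pd i hi] at e1
    rw [hG.pd j hj] at e3
    omega
  by_cases hcase : ∃ j ≤ r, ∃ u ∈ C0, T u (p j)
  · -- the largest such `j`
    set S : Finset ℕ := (range (r + 1)).filter (fun j => ∃ u ∈ C0, T u (p j)) with hS
    have hSm : ∀ j, j ∈ S ↔ j ≤ r ∧ ∃ u ∈ C0, T u (p j) := by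
      intro j
      rw [hS, mem_filter, mem_range, Nat.lt_succ_iff]
    have hSne : S.Nonempty := by
      obtain ⟨j, hj, h⟩ := hcase
      exact ⟨j, (hSm j).2 ⟨hj, h⟩⟩
    set al : ℕ := S.max' hSne with hal
    obtain ⟨halr, ua, hua, hTa⟩ := (hSm al).1 (S.max'_mem hSne)
    have hmax : ∀ j ≤ r, ∀ u ∈ C0, T u (p j) → j ≤ al := fun j hj u hu h =>
      S.le_max' j ((hSm j).2 ⟨hj, u, hu, h⟩)
    set X' : Finset V := X ∪ (Icc (al - 3) al).image p with hX'
    have hcard : X'.card < M + 4 := by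
      have h1 : X'.card ≤ X.card + ((Icc (al - 3) al).image p).card := card_union_le _ _
      have h2 : ((Icc (al - 3) al).image p).card ≤ (Icc (al - 3) al).card := card_image_le
      rw [Nat.card_Icc] at h2
      omega
    have hX'm : ∀ v, v ∉ X' → v ∉ X ∧ ∀ j, v = p j → j ≤ al → j + 3 < al := by
      intro v hv
      rw [hX', mem_union, not_or] at hv
      refine ⟨hv.1, fun j hj hjal => ?_⟩
      by_contra hcon
      refine hv.2 (mem_image.2 ⟨j, mem_Icc.2 ⟨?_, hjal⟩, hj.symm⟩)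
      omega
    have hZX' : ∀ v ∈ C0, v ∉ X' ∨ v ∈ X' := fun v _ => (em _).symm
    have hnotPP : ∀ v ∈ Z, v ∉ X' := by
      intro v hv hvX
      rw [hX', mem_union] at hvX
      rcases hvX with h | h
      · exact ((hZm v).1 hv).2.2 h
      · obtain ⟨j, hj, hjv⟩ := mem_image.1 h
        exact ((hZm v).1 hv).2.1 (mem_PP.2 ⟨j, (mem_Icc.1 hj).2.trans halr, hjv⟩)
    have hu0U : u0 ∈ U \ X' := mem_sdiff.2 ⟨((hZm u0).1 hu0).1, hnotPP u0 hu0⟩
    have hw0U : w0 ∈ U \ X' := mem_sdiff.2 ⟨((hZm w0).1 hw0).1, hnotPP w0 hw0⟩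
    have hreach := hC X' hcard u0 hu0U w0 hw0U
    have hinv := reach_inv (fun v => v ∈ C0 ∨ ∃ i, i + 3 < al ∧ v = p i) (Or.inl hu0C) ?_ hreach
    · rcases hinv with h | ⟨i, hi, h⟩
      · exact hw0C h
      · exact ((hZm w0).1 hw0).2.1 (mem_PP.2 ⟨i, by omega, h.symm⟩)
    · intro a b ha hb hab hPa
      have hbU := (mem_sdiff.1 hb).1
      have hbX := hX'm b (mem_sdiff.1 hb).2
      rcases hPa with haC | ⟨i, hi, rfl⟩
      · by_cases hbP : b ∈ PP r p
        · obtain ⟨j, hj, hjb⟩ := mem_PP.1 hbP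
          right
          refine ⟨j, hbX.2 j hjb.symm (hmax j hj a haC (by rw [hjb]; exact hab)), hjb.symm⟩
        · left
          exact hstep a haC b ((hZm b).2 ⟨hbU, hbP, hbX.1⟩) hab
      · by_cases hbP : b ∈ PP r p
        · obtain ⟨j, hj, hjb⟩ := mem_PP.1 hbP
          right
          have e := hG.d1 (p i) (hG.pU i (by omega)) b hbU hab
          rw [← hjb, hG.pd i (by omega), hG.pd j hj] at e
          exact ⟨j, hbX.2 j hjb.symm (by omega), hjb.symm⟩
        · left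
          by_contra hbC
          have hbZ : b ∈ Z := (hZm b).2 ⟨hbU, hbP, hbX.1⟩
          have := claim i (by omega) al halr ua hua b hbZ hbC hab hTa
          omega
  · -- `C0` is closed in `U \ X`
    push Not at hcase
    have hu0U : u0 ∈ U \ X := mem_sdiff.2 ⟨((hZm u0).1 hu0).1, ((hZm u0).1 hu0).2.2⟩
    have hw0U : w0 ∈ U \ X := mem_sdiff.2 ⟨((hZm w0).1 hw0).1, ((hZm w0).1 hw0).2.2⟩
    have hreach := hC X (by omega) u0 hu0U w0 hw0U
    refine hw0C (reach_inv (fun v => v ∈ C0) hu0C ?_ hreach)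
    intro a b ha hb hab haC
    have hbU := mem_sdiff.1 hb
    by_cases hbP : b ∈ PP r p
    · obtain ⟨j, hj, hjb⟩ := mem_PP.1 hbP
      exact absurd (by rw [hjb]; exact hab) (hcase j hj a haC)
    · exact hstep a haC b ((hZm b).2 ⟨hbU.1, hbP, hbU.2⟩) hab

end Pool.Agent.N391.PT
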